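import Pool.Agent.Y121.AHS.Defs

/-!
# All conjugates of a Hodge theory, with all comparison isomorphisms: definitions

In the intended use `T` is `X ↦ H(X, ℚ)` for smooth projective complex varieties, `i` runs through
the automorphisms `σ` of the field of complex numbers, `T' i` is `X ↦ H(X^σ, ℚ)`, and `a` runs
through the comparison isomorphisms given by `ℓ`-adic cohomology, for all primes `ℓ`, and by de Rham
cohomology.
-/

open CategoryTheory AlgebraicGeometry

universe u

namespace Pool.Agent.Y121.AHS.Full

open Pool.Agent.H914 Pool.Agent.H914.VarClass Pool.Agent.H914.VarClass.Obj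
  Pool.Agent.H914.WeilCohomology
open Pool.Agent.Y133.Half (dimOf)
open Pool.Agent.Y121.AHS

variable {k : Type u} [Field k] {𝒱 : VarClass k} {ops : CycleOps 𝒱}

/-- Conjugates of a Hodge theory: a family of Hodge theories, each with a family of comparison
isomorphisms after extension of the coefficients to fields which can be embedded into the complex
numbers. -/
structure Conjugates (T : HodgeTheory ops) where
  /-- the index set of the conjugate theories -/
  ι : Type u
  /-- the conjugate theories -/
  T' : ι → HodgeTheory ops
  /-- the index sets of the comparison isomorphisms -/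
  J : ι → Type u
  /-- the coefficients (`ℚ_ℓ` for `ℓ`-adic cohomology and `ℂ` for de Rham cohomology) -/
  L : ∀ i, J i → Type
  [field : ∀ i a, Field (L i a)]
  [alg : ∀ i a, Algebra T.W.K (L i a)]
  [alg' : ∀ i a, Algebra (T' i).W.K (L i a)]
  emb : ∀ i a, Nonempty (L i a →+* ℂ)
  /-- the comparison isomorphisms -/
  cmp : ∀ i a, Comparison T.W (T' i).W (L i a)

attribute [instance] Conjugates.field Conjugates.alg Conjugates.alg'

/-- The absolutely Hodge classes of degree `2 j`: the Hodge classes which correspond, for every
conjugate theory, to one Hodge class with respect to all comparison isomorphisms. -/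
def IsAbsHodge {T : HodgeTheory ops} (D : Conjugates T) (X : 𝒱.Obj) (j : ℕ) (c : T.W.H X) :
    Prop :=
  IsHodge T X j c ∧ ∀ i, ∃ c', IsHodge (D.T' i) X j c' ∧
    ∀ a, (D.cmp i a).Maps j c (emL _ _ c')

/-- The dimension of the space spanned by the absolutely Hodge classes of all degrees. -/
noncomputable def absDim {T : HodgeTheory ops} (D : Conjugates T) (X : 𝒱.Obj) : ℕ :=
  dimOf T.W {c | ∃ j, IsAbsHodge D X j c}

/-- The linear combinations of the elements `e k` with rational coefficients form a ring. -/
def SpansRing {J : Type u} {L : J → Type} [∀ a, Field (L a)] {N : ℕ} (e : Fin N → ∀ a, L a) :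
    Prop :=
  ∃ E : Subring (∀ a, L a), ∀ x, x ∈ E ↔
    ∃ q : Fin N → ℚ, ∀ a, x a = ∑ k, (q k : L a) * e k a

/-- For every Hodge class `c` of degree `2 j` on `X` there are Hodge classes `c' k` of the conjugate
theory with index `i` such that the image of `c` under each comparison isomorphism `a` (corrected by
the effect on the Tate twist) is the sum of the `e k a ⊗ c' k`. -/
def GivenBy {T : HodgeTheory ops} (D : Conjugates T) (i : D.ι) {N : ℕ}
    (e : Fin N → ∀ a, D.L i a) (X : 𝒱.Obj) (j : ℕ) : Prop :=
  ∀ c, IsHodge T X j c → ∃ c' : Fin N → (D.T' i).W.H X, (∀ k, IsHodge (D.T' i) X j (c' k)) ∧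
    ∀ a, (D.cmp i a).Maps j c (∑ k, smL (e k a) (emL _ _ (c' k)))

end Pool.Agent.Y121.AHS.Full
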