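import Pool.Agent.Y121.AHS.Defs
import Pool.Agent.Y121.AH.Alg2

/-!
# Comparison of the definitions
-/

open CategoryTheory AlgebraicGeometry TensorProduct

universe u

namespace Pool.Agent.Y121.AHS

open Pool.Agent.H914 Pool.Agent.H914.VarClass Pool.Agent.H914.VarClass.Obj
  Pool.Agent.H914.WeilCohomology
open Pool.Agent.Y121
open Pool.Agent.Y133.Half (pw)

variable {k : Type u} [Field k] {𝒱 : VarClass k} {ops : CycleOps 𝒱}

/-- The conversion of the types. -/
noncomputable def toTypes {W : WeilCohomology.{u, 0} ops} [Algebra W.K ℂ] (pq : Types W) :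
    AH.Types W := fun X p q => (pq X p q : Submodule ℂ (HL W ℂ X))

lemma mem_toTypes {W : WeilCohomology.{u, 0} ops} [Algebra W.K ℂ] {pq : Types W} {X : 𝒱.Obj}
    {p q : ℤ} {x : HL W ℂ X} : (show (baseW W ℂ).H X from x) ∈ toTypes pq X p q ↔ IsType pq p q x :=
  Iff.rfl

lemma mapBase_eq {K L A B : Type} [Field K] [Field L] [Algebra K L] [Ring A] [Algebra K A]
    [Ring B] [Algebra K B] (f : A →ₐ[K] B) (x : L ⊗[K] A) :
    mapBase L f x = f.toLinearMap.baseChange L x := by
  refine tmul_induction (P := fun x => mapBase L f x = f.toLinearMap.baseChange L x) ?_ ?_ ?_ x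
  · rw [map_zero, map_zero]
  · intro x y hx hy; rw [map_add, map_add, hx, hy]
  · intro l a
    rw [Algebra.TensorProduct.map_tmul, LinearMap.baseChange_tmul]
    rfl

lemma map_eq (W : WeilCohomology.{u, 0} ops) (L : Type) [Field L] [Algebra W.K L] {X Y : 𝒱.Obj}
    (f : X ⟶ Y) (x : HL W L Y) :
    (baseW W L).map f (show (baseW W L).H Y from x) = (show (baseW W L).H X from mapL f x) :=
  mapBase_eq (L := L) (W.map f) x

/-- The conversion of Hodge theories. -/
noncomputable def toH (T : HodgeTheory ops) : AH.HodgeTheory ops where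
  W := T.W
  rat := T.rat
  alg := T.alg
  pq := toTypes T.pq
  dec :=
    { span := fun {X i c} hc => by
        have h1 : emL T.W ℂ c ∈ grL T.W ℂ X i :=
          Submodule.tmul_mem_baseChange_of_mem (1 : ℂ) hc
        rw [T.span X i] at h1
        exact h1
      le := fun X p q i h => by
        have h1 : T.pq X p q ≤ grL T.W ℂ X i := by
          rw [T.span X i]
          exact le_iSup (fun r : {r : ℤ × ℤ // r.1 + r.2 = i} => T.pq X r.1.1 r.1.2) ⟨(p, q), h⟩
        exact h1
      indep := T.indep
      mul := fun {X p q r s a b} ha hb => T.mul X p q r s a b ha hb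
      map := fun {X Y} f {p q b} hb => by
        have h1 := T.map X Y f p q b hb
        have h2 := map_eq T.W ℂ f b
        exact h2 ▸ h1
      push := fun {X Y} f {p q a} ha => by
        have h1 := T.push X Y f p q (Y.dim - X.dim) a (by ring) ha
        rw [← add_sub_assoc, ← add_sub_assoc] at h1
        exact h1
      cyc := fun {X j z} hz => (T.cyc X j z hz).2
      polar := fun X => by
        obtain ⟨D, h1, h2, h3⟩ := T.polar X
        exact ⟨D, h1, h2, fun j hj x hx hx' => h3 j x hj ⟨hx, hx'⟩⟩ }

section Cmp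

variable {W W' : WeilCohomology.{u, 0} ops} {L : Type} [Field L] [Algebra W.K L] [Algebra W'.K L]

/-- The conversion of the isomorphisms. -/
noncomputable def toE (C : Comparison W W' L) (X : 𝒱.Obj) :
    (baseW W L).H X ≃+* (baseW W' L).H X where
  toEquiv := Equiv.ofBijective (fun x : HL W L X => C.e X x) (C.iso X).1
  map_mul' := (C.iso X).2.2
  map_add' := (C.iso X).2.1

lemma toE_nat (C : Comparison W W' L) {X Y : 𝒱.Obj} (f : X ⟶ Y) (b : (baseW W L).H Y) :
    toE C X ((baseW W L).map f b) = (baseW W' L).map f (toE C Y b) := by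
  have h1 := map_eq W L f b
  have h2 := map_eq W' L f (C.e Y b)
  have h3 := C.nat X Y f b
  calc toE C X ((baseW W L).map f b) = toE C X (show (baseW W L).H X from
        mapL f (show HL W L Y from b)) := congrArg (toE C X) h1
    _ = (show (baseW W' L).H X from mapL f (C.e Y b)) := h3
    _ = (baseW W' L).map f (toE C Y b) := h2.symm

/-- The conversion of comparison isomorphisms. -/
noncomputable def toC (C : Comparison W W' L) : AH.Comparison (baseW W L) (baseW W' L) where
  s := C.s
  c := C.c
  ne := C.ne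
  e := toE C
  semi := C.semi
  gr := fun {X i a} => C.gr X i a
  nat := toE_nat C
  cyc := fun {X j z} hz => C.cyc X j z hz
  tr := C.tr

end Cmp

instance instAlgH (T : HodgeTheory ops) (L : Type) [Field L] [h : Algebra T.W.K L] :
    Algebra (toH T).W.K L := h

/-- The conversion of the conjugates. -/
noncomputable def toD {T : HodgeTheory ops} (D : Conjugates T) : AH.Conjugates (toH T) where
  ι := D.ι
  T' i := toH (D.T' i)
  J := D.J
  t := D.t
  L := D.L
  field := D.field
  alg a := D.alg a
  alg' a := D.alg' a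
  emb := D.emb
  cmp a := toC (D.cmp a)

variable {T : HodgeTheory ops} {X : 𝒱.Obj}

lemma isHodge_iff {j : ℕ} {c : T.W.H X} : AH.IsHodge (toH T) X j c ↔ IsHodge T X j c := Iff.rfl

lemma isAbsHodge_iff {D : Conjugates T} {j : ℕ} {c : T.W.H X} :
    AH.IsAbsHodge (toD D) X j c ↔ IsAbsHodge D X j c := Iff.rfl

lemma hodgeDim_eq : AH.hodgeDim (toH T) X = hodgeDim T X := rfl

lemma absDim_eq {D : Conjugates T} : AH.absDim (toD D) X = absDim D X := rfl

lemma mem_hodgeSums {L : Type} [Field L] [Algebra T.W.K L] {F : Set L} {j : ℕ}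
    {w : (baseW T.W L).H X} (h : w ∈ AH.hodgeSums (toH T) L F X j) :
    (show HL T.W L X from w) ∈ hodgeSums T L F X j := h

lemma preservedOver {D : Conjugates T} {a : D.J} {F : Set (D.L a)} {j : ℕ}
    (h : AH.PreservedOver (toD D) a F X j) : PreservedOver D a F X j := by
  intro c hc
  obtain ⟨w, hw, h1⟩ := h c hc
  exact ⟨w, mem_hodgeSums hw, h1⟩

/-- **The zero-one law.** -/
theorem zero_one (T : HodgeTheory ops) (D : Conjugates T) (X : 𝒱.Obj) :
    (∀ a, ForFinite T.W.K (D.L a) fun F => ∀ n j, PreservedOver D a F (pw X n) j) ∨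
      RatioToZero (fun n => absDim D (pw X n)) fun n => hodgeDim T (pw X n) := by
  rcases AH.zero_one_field (toD D) X with h | h
  · left
    intro a
    obtain ⟨F, hF, h1⟩ := h a
    exact ⟨F, hF, fun n j => preservedOver (h1 n j)⟩
  · exact Or.inr h

end Pool.Agent.Y121.AHS
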