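import Pool.Agent.Y121.AHS.CDefs
import Pool.Agent.Y121.AHS.Conv
import Pool.Agent.Y121.AH.Alg3

/-!
# The index law for the Hodge classes and the absolutely Hodge classes
-/

open CategoryTheory AlgebraicGeometry TensorProduct Filter Topology

open scoped ENNReal

universe u

namespace Pool.Agent.Y121.AH

open Module
open Pool.Agent.H914 Pool.Agent.H914.VarClass Pool.Agent.H914.VarClass.Obj
  Pool.Agent.H914.WeilCohomology
open Pool.Agent.Y133.Half

variable {k : Type u} [Field k] {𝒱 : VarClass k} {ops : CycleOps 𝒱} {T : HodgeTheory ops}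

/-- A finite index implies that the Hodge classes are generated by those on one power. -/
lemma genBy_of_index (D : Conjugates T) (X : 𝒱.Obj) [Nontrivial (T.W.H X)] {N : ℕ}
    (hN : Tendsto (fun n => (hodgeDim T (pw X n) : ℝ) / absDim D (pw X n)) atTop
      (𝓝 (N : ℝ))) :
    ∃ (m : ℕ) (P : 𝒱.Obj), Nonempty (P ≅ pw X m) ∧ GenBy (absSys D) (hodgeSys T) X P := by
  obtain ⟨l, hl, hl1⟩ := exists_tr D X
  rcases growth_or (absSys D) (hodgeSys T) (abs_le_hodge D) X hl hl1 with h | h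
  · exact h
  · exfalso
    obtain ⟨n₀, hn₀⟩ := h (N + 2)
    have h1 := hN.eventually (gt_mem_nhds (show (N : ℝ) < N + 1 by linarith))
    obtain ⟨n, hn, hn'⟩ := (h1.and (eventually_ge_atTop n₀)).exists
    have h2 := hn₀ n hn'
    rw [← absDim_eq_a, ← hodgeDim_eq] at h2
    have h3 : 0 < absDim D (pw X n) := by
      have := Sys.finrank_pos_pw (X := X) (absSys D) n
      exact this
    have h4 : (0 : ℝ) < absDim D (pw X n) := by exact_mod_cast h3
    rw [div_lt_iff₀ h4] at hn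
    have h5 : ((N : ℝ) + 2) * absDim D (pw X n) ≤ hodgeDim T (pw X n) := by exact_mod_cast h2
    nlinarith

/-- The real limit from the index. -/
lemma real_of_index {t r : ℕ → ℕ} {N : ℕ} (h : HasIndex t r (N : ℕ∞)) :
    Tendsto (fun n => (t n : ℝ) / r n) atTop (𝓝 (N : ℝ)) := by
  have h2 := (ENNReal.tendsto_toReal (a := ((N : ℕ∞) : ℝ≥0∞)) (by simp)).comp h
  have h3 : (((N : ℕ∞) : ℝ≥0∞)).toReal = (N : ℝ) := by simp
  rw [h3] at h2
  refine h2.congr fun m => ?_
  rw [Function.comp_apply, ENNReal.toReal_div, ENNReal.toReal_natCast, ENNReal.toReal_natCast]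

end Pool.Agent.Y121.AH

namespace Pool.Agent.Y121.AHS.Full

open Module
open Pool.Agent.H914 Pool.Agent.H914.VarClass Pool.Agent.H914.VarClass.Obj
  Pool.Agent.H914.WeilCohomology
open Pool.Agent.Y121 Pool.Agent.Y121.AHS
open Pool.Agent.Y133.Half (pw HasIndex AtMostHalf GeneratedOver ClassPred)

variable {k : Type u} [Field k] {𝒱 : VarClass k} {ops : CycleOps 𝒱}

/-- The conversion of the conjugates. -/
noncomputable def toD {T : HodgeTheory ops} (D : Conjugates T) : AH.Conjugates (toH T) where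
  ι := D.ι
  T' i := toH (D.T' i)
  J := Σ i, D.J i
  t a := a.1
  L a := D.L a.1 a.2
  field a := D.field a.1 a.2
  alg a := D.alg a.1 a.2
  alg' a := D.alg' a.1 a.2
  emb a := D.emb a.1 a.2
  cmp a := toC (D.cmp a.1 a.2)

variable {T : HodgeTheory ops} {D : Conjugates T} {X : 𝒱.Obj}

lemma isAbsHodge_iff {X : 𝒱.Obj} {j : ℕ} {c : T.W.H X} :
    AH.IsAbsHodge (toD D) X j c ↔ IsAbsHodge D X j c := by
  constructor
  · rintro ⟨h1, c', hc', hcc⟩
    exact ⟨h1, fun i => ⟨c' i, hc' i, fun a => hcc ⟨i, a⟩⟩⟩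
  · rintro ⟨h1, h2⟩
    choose c' hc' hcc using h2
    exact ⟨h1, c', hc', fun a => hcc a.1 a.2⟩

lemma absDim_eq : AH.absDim (toD D) X = absDim D X := by
  have h : {c : T.W.H X | ∃ j, AH.IsAbsHodge (toD D) X j c} = {c | ∃ j, IsAbsHodge D X j c} := by
    ext c
    exact exists_congr fun j => isAbsHodge_iff
  exact congrArg (fun s => Pool.Agent.Y133.Half.dimOf T.W s) h

lemma pred_eq : (AH.absPred (toD D)).P = fun X j c => IsAbsHodge D X j c := by
  funext X j c
  exact propext isAbsHodge_iff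

lemma sum_eq {W : WeilCohomology.{u, 0} ops} {L : Type} [Field L] [Algebra W.K L] {N : ℕ}
    (l : Fin N → L) (c : Fin N → W.H X) :
    (show HL W L X from (∑ k, (show (baseW W L).K from l k) • AH.em W L (c k) :
      (baseW W L).H X)) = ∑ k, smL (l k) (emL W L (c k)) := rfl

/-- The comparison isomorphisms. -/
noncomputable def cmpH (D : Conjugates T) (i : D.ι) (a : D.J i) :
    AH.Comparison (baseW (toH T).W (D.L i a)) (baseW (toH (D.T' i)).W (D.L i a)) :=
  toC (D.cmp i a)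

/-- The Hodge classes are mapped into the span of the Hodge classes. -/
lemma span_of (h : ∃ (m : ℕ) (P : 𝒱.Obj), Nonempty (P ≅ pw X m) ∧
    AH.GenBy (AH.absSys (toD D)) (AH.hodgeSys (toH T)) X P) (i : D.ι) (a : D.J i) (n j : ℕ)
    (c : (toH T).W.H (pw X n)) (hc : AH.IsHodge (toH T) (pw X n) j c) :
    AH.nrm (cmpH D i a) (pw X n) j c ∈
      Submodule.span (baseW (toH (D.T' i)).W (D.L i a)).K
        {x | ∃ c', AH.IsHodge (toH (D.T' i)) (pw X n) j c' ∧
          AH.em (toH (D.T' i)).W (D.L i a) c' = x} := by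
  obtain ⟨m, P, -, hP⟩ := h
  have h3 : AH.SpanPreserved (toD D) ⟨i, a⟩ (pw X n) j := AH.span_of_genBy (toD D) hP ⟨i, a⟩ n j
  have h4 : (cmpH D i a).e (pw X n) (AH.em (toH T).W (D.L i a) c) ∈
      Submodule.span (baseW (toH (D.T' i)).W (D.L i a)).K
        {x | ∃ c', AH.IsHodge (toH (D.T' i)) (pw X n) j c' ∧
          AH.em (toH (D.T' i)).W (D.L i a) c' = x} := h3 c hc
  exact Submodule.smul_mem _ _ h4

lemma abs_of (i : D.ι) (Z : 𝒱.Obj) (j : ℕ) (z : (toH T).W.H Z)
    (hz : AH.IsAbsHodge (toD D) Z j z) : ∃ z', AH.IsHodge (toH (D.T' i)) Z j z' ∧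
      ∀ a, AH.nrm (cmpH D i a) Z j z = AH.em (toH (D.T' i)).W (D.L i a) z' := by
  obtain ⟨-, c', hc', hcc⟩ := hz
  refine ⟨c' i, hc' i, fun a => (AH.nrm_eq_iff (cmpH D i a)).2 ?_⟩
  exact hcc ⟨i, a⟩

lemma maps_of (i : D.ι) (a : D.J i) {Z : 𝒱.Obj} {j : ℕ} {c : T.W.H Z} {N : ℕ}
    {l : Fin N → D.L i a} {c' : Fin N → (D.T' i).W.H Z}
    (h : AH.nrm (cmpH D i a) Z j c = ∑ k, (show (baseW (toH (D.T' i)).W (D.L i a)).K from l k) •
      AH.em (toH (D.T' i)).W (D.L i a) (c' k)) :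
    (D.cmp i a).Maps j c (∑ k, smL (l k) (emL _ _ (c' k))) := by
  have h1 := (AH.nrm_eq_iff (cmpH D i a)).1 h
  exact h1

end Pool.Agent.Y121.AHS.Full
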