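import Pool.Agent.Y121.AHS.HL
import Pool.Agent.Y133.Half.HalfDefs

/-!
# Hodge theories, comparison isomorphisms and absolutely Hodge classes: definitions

In the intended use `k` is an algebraically closed field of characteristic zero, the varieties are
the smooth projective ones, and for each embedding `ρ` of `k` into the complex numbers
`X ↦ H(ρ X, ℚ)` is a Hodge theory.
-/

open CategoryTheory AlgebraicGeometry

universe u

namespace Pool.Agent.Y121.AHS

open Pool.Agent.H914 Pool.Agent.H914.VarClass Pool.Agent.H914.VarClass.Obj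
  Pool.Agent.H914.WeilCohomology
open Pool.Agent.Y133.Half (dimOf)

variable {k : Type u} [Field k] {𝒱 : VarClass k} {ops : CycleOps 𝒱}

section Types

variable (W : WeilCohomology.{u, 0} ops) [Algebra W.K ℂ]

/-- Subspaces `pq X p q`, for integers `p` and `q`, of the cohomology of `X` with complex
coefficients. -/
abbrev Types := ∀ X : 𝒱.Obj, ℤ → ℤ → Submodule ℂ (HL W ℂ X)

variable {W} {X : 𝒱.Obj}

/-- The class `x` is of type `(p, q)`. -/
def IsType (pq : Types W) (p q : ℤ) (x : HL W ℂ X) : Prop := x ∈ pq X p q

/-- The rational class `x` is a Hodge class of degree `2 j`. -/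
def IsHodgeClass (pq : Types W) (j : ℕ) (x : W.H X) : Prop :=
  x ∈ W.gr X (2 * j) ∧ IsType pq j j (emL W ℂ x)

/-- The cohomology of degree `i` with complex coefficients is spanned by the spaces `pq X p q` with
`p + q = i`. -/
def SumsTo (pq : Types W) : Prop := ∀ (X : 𝒱.Obj) (i : ℕ),
  grL W ℂ X i = ⨆ r : {r : ℤ × ℤ // r.1 + r.2 = i}, pq X r.1.1 r.1.2

/-- The sum of the spaces is direct. -/
def IsDirect (pq : Types W) : Prop := ∀ X : 𝒱.Obj, iSupIndep fun r : ℤ × ℤ => pq X r.1 r.2

/-- The types are additive for products. -/
def RespMul (pq : Types W) : Prop := ∀ (X : 𝒱.Obj) (p q r s : ℤ) (a b : HL W ℂ X),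
  IsType pq p q a → IsType pq r s b → IsType pq (p + r) (q + s) (mulL a b)

/-- Pull-backs preserve the types. -/
def RespMap (pq : Types W) : Prop := ∀ (X Y : 𝒱.Obj) (f : X ⟶ Y) (p q : ℤ) (b : HL W ℂ Y),
  IsType pq p q b → IsType pq p q (mapL f b)

/-- Push-forwards shift the types by the difference `d` of the dimensions. -/
def RespPush (pq : Types W) : Prop := ∀ (X Y : 𝒱.Obj) (f : X ⟶ Y) (p q d : ℤ) (a : HL W ℂ X),
  X.dim + d = Y.dim → IsType pq p q a → IsType pq (p + d) (q + d) (pushL f a)

/-- The classes of algebraic cycles of codimension `j` are Hodge classes. -/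
def RespCyc (pq : Types W) : Prop := ∀ (X : 𝒱.Obj) (j : ℕ) (z : X.Cycles), X.IsCyc j z →
  IsHodgeClass pq j (W.cl X z)

/-- Every variety has a polarisation: a divisor `D` whose class satisfies the hard Lefschetz theorem
and the Hodge-Riemann relations for the Hodge classes. -/
def IsPolarised (pq : Types W) : Prop :=
  ∀ X : 𝒱.Obj, ∃ D : X.Cycles, X.IsCyc 1 D ∧ HardLefschetz W X D ∧
    ∀ (j : ℕ) (x : W.H X), 2 * j ≤ X.dim → IsHodgeClass pq j x →
      Riemann (W.tr X) (W.cl X D) x X.dim j

end Types

/-- A Hodge theory: a Weil cohomology theory with rational coefficients and a Hodge decomposition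
of its cohomology with complex coefficients. -/
structure HodgeTheory (ops : CycleOps 𝒱) where
  /-- the cohomology with rational coefficients -/
  W : WeilCohomology.{u, 0} ops
  rat : ∀ r : W.K, ∃ q : ℚ, (q : W.K) = r
  [alg : Algebra W.K ℂ]
  /-- the spaces `H^(p,q)(X)` -/
  pq : Types W
  span : SumsTo pq
  indep : IsDirect pq
  mul : RespMul pq
  map : RespMap pq
  push : RespPush pq
  cyc : RespCyc pq
  polar : IsPolarised pq

attribute [instance] HodgeTheory.alg

/-- The Hodge classes of degree `2 j`. -/
def IsHodge (T : HodgeTheory ops) (X : 𝒱.Obj) (j : ℕ) (c : T.W.H X) : Prop :=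
  IsHodgeClass T.pq j c

section Comparison

variable (W W' : WeilCohomology.{u, 0} ops) (L : Type) [Field L] [Algebra W.K L] [Algebra W'.K L]

/-- Maps between the cohomology with coefficients in `L` of two cohomology theories. -/
abbrev Maps := ∀ X : 𝒱.Obj, HL W L X → HL W' L X

variable {W W' L}

/-- The maps are bijective, additive and multiplicative. -/
def IsRingIso (e : Maps W W' L) : Prop := ∀ X : 𝒱.Obj, Function.Bijective (e X) ∧
  (∀ x y, e X (x + y) = e X x + e X y) ∧ ∀ x y, e X (mulL x y) = mulL (e X x) (e X y)

/-- The maps are semilinear. -/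
def Semi (e : Maps W W' L) (s : L ≃+* L) : Prop :=
  ∀ (X : 𝒱.Obj) (l : L) (x : HL W L X), e X (smL l x) = smL (s l) (e X x)

/-- The maps respect the degrees. -/
def RespGr (e : Maps W W' L) : Prop := ∀ (X : 𝒱.Obj) (i : ℕ) (x : HL W L X),
  IsDeg i (e X x) ↔ IsDeg i x

/-- The maps commute with pull-backs. -/
def Natural (e : Maps W W' L) : Prop := ∀ (X Y : 𝒱.Obj) (f : X ⟶ Y) (b : HL W L Y),
  e X (mapL f b) = mapL f (e Y b)

/-- The maps respect the classes of cycles, up to the powers of `c`. -/
def RespCl (e : Maps W W' L) (c : L) : Prop := ∀ (X : 𝒱.Obj) (j : ℕ) (z : X.Cycles),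
  X.IsCyc j z → e X (emL W L (W.cl X z)) = twL c j (emL W' L (W'.cl X z))

/-- The maps respect the traces, up to the powers of `c`. -/
def RespTr (e : Maps W W' L) (s : L ≃+* L) (c : L) : Prop := ∀ (X : 𝒱.Obj) (a : HL W L X),
  trL (e X a) = c ^ X.dim * s (trL a)

variable (W W' L)

/-- A comparison isomorphism between the cohomology theories `W` and `W'` with coefficients in `L`:
semilinear ring isomorphisms which preserve the degrees, commute with pull-backs and respect the
classes of algebraic cycles and the orientations up to the powers of a constant `c` (since the Tate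
twists are suppressed; `c` describes the effect on the Tate twist). -/
structure Comparison where
  /-- the automorphism of the coefficients -/
  s : L ≃+* L
  /-- the effect on the Tate twist -/
  c : L
  ne : c ≠ 0
  /-- the isomorphisms -/
  e : Maps W W' L
  iso : IsRingIso e
  semi : Semi e s
  gr : RespGr e
  nat : Natural e
  cyc : RespCl e c
  tr : RespTr e s c

variable {W W' L}

/-- The image of the rational class `x` of degree `2 j` is `w`, if the effect on the Tate twist is
taken into account. -/
def Comparison.Maps (C : Comparison W W' L) {X : 𝒱.Obj} (j : ℕ) (x : W.H X) (w : HL W' L X) :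
    Prop :=
  C.e X (emL W L x) = twL C.c j w

end Comparison

/-- Conjugates of a Hodge theory: a family of Hodge theories with comparison isomorphisms, after
extension of the coefficients to fields which can be embedded into the complex numbers. (The
coefficients `L a` are `ℚ_ℓ` for `ℓ`-adic cohomology and `ℂ` for de Rham cohomology.) -/
structure Conjugates (T : HodgeTheory ops) where
  /-- the index set of the conjugate theories -/
  ι : Type u
  /-- the conjugate theories -/
  T' : ι → HodgeTheory ops
  /-- the index set of the comparison isomorphisms -/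
  J : Type u
  /-- the theory to which `T` is compared -/
  t : J → ι
  /-- the coefficients -/
  L : J → Type
  [field : ∀ a, Field (L a)]
  [alg : ∀ a, Algebra T.W.K (L a)]
  [alg' : ∀ a, Algebra (T' (t a)).W.K (L a)]
  emb : ∀ a, Nonempty (L a →+* ℂ)
  /-- the comparison isomorphisms -/
  cmp : ∀ a, Comparison T.W (T' (t a)).W (L a)

attribute [instance] Conjugates.field Conjugates.alg Conjugates.alg'

/-- The absolutely Hodge classes of degree `2 j`: the Hodge classes which correspond to Hodge
classes in all conjugate theories, with respect to all comparison isomorphisms. -/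
def IsAbsHodge {T : HodgeTheory ops} (D : Conjugates T) (X : 𝒱.Obj) (j : ℕ) (c : T.W.H X) :
    Prop :=
  IsHodge T X j c ∧ ∃ c' : ∀ i, (D.T' i).W.H X, (∀ i, IsHodge (D.T' i) X j (c' i)) ∧
    ∀ a, (D.cmp a).Maps j c (emL _ _ (c' (D.t a)))

/-- The dimension of the space spanned by the Hodge classes of all degrees. -/
noncomputable def hodgeDim (T : HodgeTheory ops) (X : 𝒱.Obj) : ℕ :=
  dimOf T.W {c | ∃ j, IsHodge T X j c}

/-- The dimension of the space spanned by the absolutely Hodge classes of all degrees. -/
noncomputable def absDim {T : HodgeTheory ops} (D : Conjugates T) (X : 𝒱.Obj) : ℕ :=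
  dimOf T.W {c | ∃ j, IsAbsHodge D X j c}

/-- The sums of classes `l ⊗ c` with `l` in `F` and Hodge classes `c` of degree `2 j`. -/
noncomputable def hodgeSums (T : HodgeTheory ops) (L : Type) [Field L] [Algebra T.W.K L]
    (F : Set L) (X : 𝒱.Obj) (j : ℕ) : AddSubmonoid (HL T.W L X) :=
  AddSubmonoid.closure {x | ∃ l ∈ F, ∃ c, IsHodge T X j c ∧ smL l (emL T.W L c) = x}

/-- Every Hodge class of degree `2 j` on `X` is mapped by the comparison isomorphism with index `a`
(corrected by the effect on the Tate twist) to a linear combination with coefficients in `F` of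
Hodge classes of degree `2 j` of the conjugate theory. -/
def PreservedOver {T : HodgeTheory ops} (D : Conjugates T) (a : D.J) (F : Set (D.L a)) (X : 𝒱.Obj)
    (j : ℕ) : Prop :=
  ∀ c, IsHodge T X j c → ∃ w ∈ hodgeSums (D.T' (D.t a)) (D.L a) F X j, (D.cmp a).Maps j c w

end Pool.Agent.Y121.AHS
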