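import Mathlib

/-!
# Extension of the coefficients of an algebra
-/

open TensorProduct

namespace Pool.Agent.Y121.AHS

variable (K L A : Type) [Field K] [Field L] [Algebra K L] [Ring A] [Algebra K A]

/-- The `K`-algebra `A` with coefficients extended to `L`. -/
def Ext : Type := L ⊗[K] A

noncomputable instance instAddExt : AddCommGroup (Ext K L A) :=
  (inferInstance : AddCommGroup (L ⊗[K] A))

noncomputable instance instModExt : Module L (Ext K L A) :=
  (inferInstance : Module L (L ⊗[K] A))

variable {A}

/-- The element `1 ⊗ a`. -/
noncomputable def extEm (a : A) : Ext K L A := (1 : L) ⊗ₜ[K] a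

/-- The multiplication by `l`. -/
noncomputable def extSm (l : L) (x : Ext K L A) : Ext K L A := l • x

/-- The multiplication by `c ^ j`. -/
noncomputable def extTw (c : L) (j : ℕ) (x : Ext K L A) : Ext K L A := c ^ j • x

/-- The product. -/
noncomputable def extMul (a b : Ext K L A) : Ext K L A :=
  (show L ⊗[K] A from a) * (show L ⊗[K] A from b)

/-- The extension of a subspace. -/
noncomputable def extSub (p : Submodule K A) : Submodule L (Ext K L A) :=
  (p.baseChange L : Submodule L (L ⊗[K] A))

/-- The extension of a linear map. -/
noncomputable def extMap {B : Type} [Ring B] [Algebra K B] (f : A →ₗ[K] B) (x : Ext K L A) :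
    Ext K L B :=
  f.baseChange L (show L ⊗[K] A from x)

/-- The extension of an algebra homomorphism. -/
noncomputable def extHom {B : Type} [Ring B] [Algebra K B] (f : A →ₐ[K] B) (x : Ext K L A) :
    Ext K L B :=
  extMap K L f.toLinearMap x

/-- The extension of a linear form. -/
noncomputable def extForm (f : A →ₗ[K] K) (x : Ext K L A) : L :=
  TensorProduct.AlgebraTensorModule.rid K L L (f.baseChange L (show L ⊗[K] A from x))

variable {K}

/-- The Hodge-Riemann relation for the class `x` of degree `2 j` on a variety of dimension `d` with
the polarisation `l`: if `x` is primitive and not zero, then `(-1) ^ j tr(l ^ (d - 2 j) x x)` is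
positive. -/
def Riemann (tr : A →ₗ[K] K) (l x : A) (d j : ℕ) : Prop :=
  l ^ (d - 2 * j + 1) * x = 0 → x ≠ 0 →
    ∃ r : ℚ, 0 < r ∧ (-1) ^ j * tr (l ^ (d - 2 * j) * x * x) = (r : K)

/-- The property `P` holds for some subfield of `L` of finite degree over `K`. -/
def ForFinite (K L : Type) [Field K] [Field L] [Algebra K L] (P : Set L → Prop) : Prop :=
  ∃ F : IntermediateField K L, FiniteDimensional K F ∧ P F

/-- The quotient of the two sequences of numbers tends to zero. -/
def RatioToZero (a b : ℕ → ℕ) : Prop :=
  Filter.Tendsto (fun n => (a n : ℝ) / b n) Filter.atTop (nhds 0)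

end Pool.Agent.Y121.AHS
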