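import Mathlib

/-!
# Linear combinations and correspondences
-/

namespace Pool.Agent.Y121.AHS

variable {K A B C : Type} [Field K] [Ring A] [Algebra K A] [Ring B] [Algebra K B] [Ring C]
  [Algebra K C]

/-- The element `x` is a linear combination of elements of `S`. -/
def InSpan (K : Type) {A : Type} [Field K] [Ring A] [Algebra K A] (S : Set A) (x : A) : Prop :=
  x ∈ Submodule.span K S

/-- The element `s (z p(a))`. -/
def transfer (p : A →ₐ[K] C) (s : C →ₗ[K] B) (z : C) (a : A) : B := s (z * p a)

end Pool.Agent.Y121.AHS
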