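import Pool.Agent.Y121.AHS.CDefs
import Pool.Agent.Y121.AHS.Gen0

/-!
# The index, and generation of the Hodge classes: definitions
-/

open CategoryTheory AlgebraicGeometry

open scoped ENNReal

universe u

namespace Pool.Agent.Y121.AHS.Full

open Pool.Agent.H914 Pool.Agent.H914.VarClass Pool.Agent.H914.VarClass.Obj
  Pool.Agent.H914.WeilCohomology
open Pool.Agent.Y133.Half (pw)
open Pool.Agent.Y121.AHS

variable {k : Type u} [Field k] {𝒱 : VarClass k} {ops : CycleOps 𝒱}

/-- The quotients `t n / s n` converge to `N`, an element of `ℕ ∪ {∞}`. -/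
def HasIndex (t s : ℕ → ℕ) (N : ℕ∞) : Prop :=
  Filter.Tendsto (fun n => (t n : ℝ≥0∞) / s n) Filter.atTop (nhds (N : ℝ≥0∞))

/-- The class `x` on `Z` is the image `pr₂_* (z · pr₁^* c)` of the class `c` on `Y` under a
correspondence given by an absolutely Hodge class `z` on the product of `Y` and `Z`. -/
def IsImage {T : HodgeTheory ops} (D : Conjugates T) {Y Z : 𝒱.Obj} (c : T.W.H Y) (x : T.W.H Z) :
    Prop :=
  ∃ j z, IsAbsHodge D (Y.prod Z) j z ∧ transfer (T.W.map (fst Y Z)) (T.W.push (snd Y Z)) z c = x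

/-- The absolutely Hodge classes on `Z` and the images of the classes `c i` on `Y i`. -/
def gens {T : HodgeTheory ops} (D : Conjugates T) {r : ℕ} {Y : Fin r → 𝒱.Obj}
    (c : ∀ i, T.W.H (Y i)) (Z : 𝒱.Obj) : Set (T.W.H Z) :=
  {x | (∃ j, IsAbsHodge D Z j x) ∨ ∃ i, IsImage D (c i) x}

/-- All Hodge classes on `Z` are linear combinations of elements of `S`. -/
def HodgeIn (T : HodgeTheory ops) (Z : 𝒱.Obj) (S : Set (T.W.H Z)) : Prop :=
  ∀ j x, IsHodge T Z j x → InSpan T.W.K S x

/-- There are `r` Hodge classes on powers of `X`, where `r + 1 ≤ N`, such that all Hodge classes on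
all powers of `X` are linear combinations of absolutely Hodge classes and of images of these `r`
classes under correspondences given by absolutely Hodge classes. -/
def FewGenerators {T : HodgeTheory ops} (D : Conjugates T) (X : 𝒱.Obj) (N : ℕ∞) : Prop :=
  ∃ (r : ℕ) (m : Fin r → ℕ) (c : ∀ i, T.W.H (pw X (m i))), (r : ℕ∞) + 1 ≤ N ∧
    (∀ i, ∃ j, IsHodge T (pw X (m i)) j (c i)) ∧ ∀ n, HodgeIn T (pw X n) (gens D c (pw X n))

end Pool.Agent.Y121.AHS.Full
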