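import Pool.Agent.H914R2.StdDefs
import Pool.Agent.Y121.AHS.Ext

/-!
# The cohomology with extended coefficients
-/

open CategoryTheory AlgebraicGeometry

universe u

namespace Pool.Agent.Y121.AHS

open Pool.Agent.H914 Pool.Agent.H914.VarClass Pool.Agent.H914.VarClass.Obj
  Pool.Agent.H914.WeilCohomology

variable {k : Type u} [Field k] {𝒱 : VarClass k} {ops : CycleOps 𝒱}
  (W : WeilCohomology.{u, 0} ops) (L : Type) [Field L] [Algebra W.K L] (X : 𝒱.Obj) {Y : 𝒱.Obj}

/-- The cohomology of `X` with coefficients extended to `L`. -/
def HL : Type := Ext W.K L (W.H X)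

noncomputable instance instAddHL : AddCommGroup (HL W L X) := instAddExt W.K L (W.H X)

noncomputable instance instModHL : Module L (HL W L X) := instModExt W.K L (W.H X)

variable {X}

/-- The class `1 ⊗ c`. -/
noncomputable def emL (c : W.H X) : HL W L X := extEm W.K L c

variable {W L}

/-- The multiplication by `l`. -/
noncomputable def smL (l : L) (x : HL W L X) : HL W L X := extSm W.K L l x

/-- The multiplication by `c ^ j`. -/
noncomputable def twL (c : L) (j : ℕ) (x : HL W L X) : HL W L X := extTw W.K L c j x

/-- The product of two classes. -/
noncomputable def mulL (a b : HL W L X) : HL W L X := extMul W.K L a b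

variable (W L X)

/-- The classes of degree `i` with coefficients extended to `L`. -/
noncomputable def grL (i : ℕ) : Submodule L (HL W L X) := extSub W.K L (W.gr X i)

variable {W L X}

/-- The class `x` is of degree `i`. -/
def IsDeg (i : ℕ) (x : HL W L X) : Prop := x ∈ grL W L X i

/-- The trace with coefficients extended to `L`. -/
noncomputable def trL (x : HL W L X) : L := extForm W.K L (W.tr X) x

/-- The pull-back with coefficients extended to `L`. -/
noncomputable def mapL (f : X ⟶ Y) (x : HL W L Y) : HL W L X := extHom W.K L (W.map f) x

/-- The push-forward with coefficients extended to `L`. -/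
noncomputable def pushL (f : X ⟶ Y) (x : HL W L X) : HL W L Y := extMap W.K L (W.push f) x

end Pool.Agent.Y121.AHS
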