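import Pool.Agent.Y121.AHS.Conv2

/-!
# The index law for the Hodge classes and the absolutely Hodge classes
-/

open CategoryTheory AlgebraicGeometry TensorProduct Filter Topology

open scoped ENNReal

universe u

namespace Pool.Agent.Y121.AHS.Full

open Module
open Pool.Agent.H914 Pool.Agent.H914.VarClass Pool.Agent.H914.VarClass.Obj
  Pool.Agent.H914.WeilCohomology
open Pool.Agent.Y121 Pool.Agent.Y121.AHS
open Pool.Agent.Y133.Half (pw HasIndex AtMostHalf GeneratedOver ClassPred)

variable {k : Type u} [Field k] {𝒱 : VarClass k} {ops : CycleOps 𝒱}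
variable {T : HodgeTheory ops} {D : Conjugates T} {X : 𝒱.Obj}

lemma absDim_pos [Nontrivial (T.W.H X)] (n : ℕ) : 0 < absDim D (pw X n) := by
  have hnt : Nontrivial ((toH T).W.H X) := ‹Nontrivial (T.W.H X)›
  rw [← absDim_eq]
  exact Pool.Agent.Y133.Half.Sys.finrank_pos_pw (X := X) (AH.absSys (toD D)) n

/-- The condition describing the rational linear combinations. -/
lemma spansRing_of {J : Type u} {L : J → Type} [∀ a, Field (L a)] [∀ a, Algebra T.W.K (L a)]
    {N : ℕ} (e : Fin N → ∀ a, L a) (E : Subalgebra T.W.K (∀ a, L a))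
    (he : Submodule.span T.W.K (Set.range e) = Subalgebra.toSubmodule E) : SpansRing e := by
  refine ⟨E.toSubring, fun x => ?_⟩
  have h1 : x ∈ E.toSubring ↔ x ∈ Submodule.span T.W.K (Set.range e) := by
    rw [he]
    exact Iff.rfl
  rw [h1, Submodule.mem_span_range_iff_exists_fun]
  constructor
  · rintro ⟨q, hq⟩
    choose ρ hρ using fun k => T.rat (q k)
    refine ⟨ρ, fun a => ?_⟩
    have h2 := congrFun hq a
    rw [Finset.sum_apply] at h2
    refine h2.symm.trans (Finset.sum_congr rfl fun k _ => ?_)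
    rw [Pi.smul_apply, ← hρ k, Algebra.smul_def, map_ratCast]
  · rintro ⟨q, hq⟩
    refine ⟨fun k => (q k : T.W.K), funext fun a => ?_⟩
    rw [Finset.sum_apply, hq a]
    refine Finset.sum_congr rfl fun k _ => ?_
    rw [Pi.smul_apply, Algebra.smul_def, map_ratCast]

/-- The algebra of coefficients. -/
theorem exists_ring [Nontrivial (T.W.H X)] {N : ℕ}
    (hN : HasIndex (fun n => hodgeDim T (pw X n)) (fun n => absDim D (pw X n)) (N : ℕ∞))
    (i : D.ι) : ∃ e : Fin N → ∀ a, D.L i a, SpansRing e ∧ ∀ n j, GivenBy D i e (pw X n) j := by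
  have hnt : Nontrivial ((toH T).W.H X) := ‹Nontrivial (T.W.H X)›
  have hN' : Tendsto (fun n => (AH.hodgeDim (toH T) (pw X n) : ℝ) /
      AH.absDim (toD D) (pw X n)) atTop (𝓝 (N : ℝ)) := by
    have h1 := AH.real_of_index hN
    simp only [absDim_eq]
    exact h1
  have hP := AH.genBy_of_index (toD D) X hN'
  have key := AH.exists_algebra (T := toH T) (T' := toH (D.T' i)) (J := D.J i)
    (L := D.L i) (cmpH D i) (X := X) (toD D) (abs_of i) (D.emb i) hN'
    (fun a n j c hc => span_of hP i a n j c hc)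
  obtain ⟨E, e, he, h⟩ := key
  refine ⟨e, spansRing_of (T := T) e E he, fun n j c hc => ?_⟩
  obtain ⟨c', hc', h2⟩ := h n j c hc
  exact ⟨c', hc', fun a => maps_of i a (h2 a)⟩

end Pool.Agent.Y121.AHS.Full
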