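import Pool.Agent.Y121.AHS.Index
import Pool.Agent.Y121.AHS.FDefs

/-!
# The index law for the Hodge classes and the absolutely Hodge classes
-/

open CategoryTheory AlgebraicGeometry TensorProduct Filter Topology

open scoped ENNReal

universe u

namespace Pool.Agent.Y121.AHS.Full

open Module
open Pool.Agent.H914 Pool.Agent.H914.VarClass Pool.Agent.H914.VarClass.Obj
  Pool.Agent.H914.WeilCohomology
open Pool.Agent.Y121 Pool.Agent.Y121.AHS
open Pool.Agent.Y133.Half (pw AtMostHalf GeneratedOver ClassPred dimBy)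

variable {k : Type u} [Field k] {𝒱 : VarClass k} {ops : CycleOps 𝒱}
variable {T : HodgeTheory ops} {D : Conjugates T} {X : 𝒱.Obj}

lemma dimBy_abs (Z : 𝒱.Obj) :
    dimBy (toH T).W (AH.absPred (toD D)).P Z = absDim D Z := absDim_eq

lemma fewGenerators_of {N : ℕ∞} (h : GeneratedOver T.W (fun X j c => IsAbsHodge D X j c)
    (fun X j c => IsHodge T X j c) X N) : FewGenerators D X N := by
  obtain ⟨r, c, hr, hc, h⟩ := h
  refine ⟨r, fun i => (c i).1, fun i => (c i).2, hr, hc, fun n j x hx => ?_⟩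
  have h1 := h n j x hx
  refine Submodule.span_mono ?_ h1
  rintro z (hz | hz)
  · exact Or.inl hz
  · obtain ⟨i, j, z, hz, hz'⟩ := Set.mem_iUnion.1 hz
    exact Or.inr ⟨i, j, z, hz, hz'⟩

/-- **The index law** for the Hodge classes and the absolutely Hodge classes. -/
theorem index_law (T : HodgeTheory ops) (D : Conjugates T) (X : 𝒱.Obj) [Nontrivial (T.W.H X)] :
    ∃ N : ℕ∞, 1 ≤ N ∧
      HasIndex (fun n => hodgeDim T (pw X n)) (fun n => absDim D (pw X n)) N ∧
      (N = 1 ↔ ∀ n j c, IsHodge T (pw X n) j c → IsAbsHodge D (pw X n) j c) ∧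
      (N ≠ 1 → AtMostHalf (fun n => absDim D (pw X n)) fun n => hodgeDim T (pw X n)) ∧
      (∀ r : ℕ, N = r → ∀ i, ∃ e : Fin r → ∀ a, D.L i a, SpansRing e ∧
        ∀ n j, GivenBy D i e (pw X n) j) ∧
      (N ≠ ⊤ → FewGenerators D X N) := by
  have hnt : Nontrivial ((toH T).W.H X) := ‹Nontrivial (T.W.H X)›
  obtain ⟨N, M, h1, -, h2, -, -, h3, -, h4, -, h5, -⟩ :=
    ClassPred.tower (AH.absPred (toD D)) (AH.hodgePred (toH T)) (fun h => h.1) X
      (fun n => AH.abs_nondeg (toD D) (pw X n))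
  simp only [dimBy_abs] at h2 h4
  refine ⟨N, h1, h2, ?_, h4, ?_, ?_⟩
  · rw [h3]
    exact forall_congr' fun n => forall_congr' fun j => forall_congr' fun c =>
      imp_congr_right fun _ => isAbsHodge_iff
  · rintro r rfl i
    exact exists_ring h2 i
  · intro hN
    have h6 := h5 hN
    rw [pred_eq] at h6
    exact fewGenerators_of h6

end Pool.Agent.Y121.AHS.Full
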