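import Pool.Agent.Y121.AHS.CDefs

/-!
# Families of comparison isomorphisms containing the `p`-adic ones for all primes: definitions
-/

open CategoryTheory AlgebraicGeometry

open scoped ENNReal

universe u

namespace Pool.Agent.Y121.AHS.Full

open Pool.Agent.H914
open Pool.Agent.Y121.AHS

variable {k : Type u} [Field k] {𝒱 : VarClass k} {ops : CycleOps 𝒱}

/-- For every conjugate theory and every prime number `p` there is a comparison isomorphism with
coefficients in a subfield of `ℚ_p` (in the use: in `ℚ_p`). -/
def AllPrimes {T : HodgeTheory ops} (D : Conjugates T) : Prop :=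
  ∀ (i : D.ι) (p : ℕ) [Fact p.Prime], ∃ a : D.J i, Nonempty (D.L i a →+* ℚ_[p])

/-- For the conjugate theory with index `i`, each comparison isomorphism `a` and each Hodge class `c`
of degree `2 j` on `X`, the image of `c` under `a` (corrected by the effect on the Tate twist) is
`c₀ + ε a • c₁`, where `c₀` and `c₁` are Hodge classes of the conjugate theory which do not depend on
`a`. In particular it is a Hodge class of the conjugate theory, and there are at most two
possibilities for it, for all `a`. -/
def UpToSign {T : HodgeTheory ops} (D : Conjugates T) (i : D.ι) (ε : D.J i → ℤˣ) (X : 𝒱.Obj)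
    (j : ℕ) : Prop :=
  ∀ c, IsHodge T X j c → ∃ c₀ c₁, IsHodge (D.T' i) X j c₀ ∧ IsHodge (D.T' i) X j c₁ ∧
    ∀ a, (D.cmp i a).Maps j c (emL _ _ (c₀ + ε a • c₁))

/-- The quotients `s n / t n` converge to `1 / N`, where `N` is a natural number at least `3` or
infinity. -/
def AtMostThird (s t : ℕ → ℕ) : Prop :=
  ∃ N : ℕ∞, 3 ≤ N ∧
    Filter.Tendsto (fun n => (s n : ℝ≥0∞) / t n) Filter.atTop (nhds (N : ℝ≥0∞)⁻¹)

end Pool.Agent.Y121.AHS.Full
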