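import Pool.Agent.Y121.AHS.Law
import Pool.Agent.Y121.AHS.PDefs
import Pool.Agent.Y121.NT.Two

/-!
# The one-third law
-/

open CategoryTheory AlgebraicGeometry TensorProduct Filter Topology

open scoped ENNReal

universe u

namespace Pool.Agent.Y121.AHS.Full

open Module
open Pool.Agent.H914 Pool.Agent.H914.VarClass Pool.Agent.H914.VarClass.Obj
  Pool.Agent.H914.WeilCohomology
open Pool.Agent.Y121 Pool.Agent.Y121.AHS
open Pool.Agent.Y133.Half (pw)

variable {k : Type u} [Field k] {𝒱 : VarClass k} {ops : CycleOps 𝒱}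
variable {T : HodgeTheory ops} {D : Conjugates T} {X : 𝒱.Obj}

lemma em_rat_smul {W : WeilCohomology.{u, 0} ops} {L : Type} [Field L] [Algebra W.K L]
    (q : ℚ) (a : W.H X) : AH.em W L ((q : W.K) • a) = (q : (baseW W L).K) • AH.em W L a := by
  rw [AH.em_smul, AH.ex_rat]

lemma charZero_of (D : Conjugates T) (i : D.ι) (a : D.J i) : CharZero (D.L i a) := by
  obtain ⟨τ⟩ := D.emb i a
  refine ⟨fun m n h => ?_⟩
  have h1 := congrArg τ h
  rw [map_natCast, map_natCast] at h1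
  exact_mod_cast h1

lemma em_sum {W : WeilCohomology.{u, 0} ops} {L : Type} [Field L] [Algebra W.K L] {ι : Type}
    (s : Finset ι) (f : ι → W.H X) :
    AH.em W L (∑ k ∈ s, f k) = ∑ k ∈ s, AH.em W L (f k) :=
  map_sum (AddMonoidHom.mk' (AH.em W L (X := X)) AH.em_add) f s

lemma sign_smul {M : Type*} [AddCommGroup M] {K : Type*} [Field K] [Module K M] (s : ℤˣ) (x : M) :
    s • x = (((s : ℤ) : ℚ) : K) • x := by
  rcases Int.units_eq_one_or s with rfl | rfl
  · simp
  · rw [Units.neg_smul, one_smul]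
    simp

lemma upToSign_of (hD : AllPrimes D) (i : D.ι) {e : Fin 2 → ∀ a, D.L i a} (he : SpansRing e) :
    ∃ ε : D.J i → ℤˣ, ∀ n j, GivenBy D i e (pw X n) j → UpToSign D i ε (pw X n) j := by
  have := charZero_of D i
  obtain ⟨E, hE⟩ := he
  obtain ⟨ε, hε⟩ := NT.signs_of_two (hD i) hE
  have hmem : ∀ k, e k ∈ E := by
    intro k
    rw [hE]
    refine ⟨Pi.single k 1, fun a => ?_⟩
    rw [Finset.sum_eq_single k]
    · simp
    · intro j _ hj
      simp [Pi.single_eq_of_ne hj]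
    · simp
  choose α β hαβ using fun k => hε (e k) (hmem k)
  refine ⟨ε, fun n j h1 c hc => ?_⟩
  obtain ⟨c', hc', h2⟩ := h1 c hc
  set K := (D.T' i).W.K with hK
  refine ⟨∑ k, ((α k : ℚ) : K) • c' k, ∑ k, ((β k : ℚ) : K) • c' k, ?_, ?_, fun a => ?_⟩
  · exact (AH.hodgeSub (toH (D.T' i)) (pw X n) j).sum_mem fun k _ =>
      (AH.hodgeSub (toH (D.T' i)) (pw X n) j).smul_mem _ (hc' k)
  · exact (AH.hodgeSub (toH (D.T' i)) (pw X n) j).sum_mem fun k _ =>
      (AH.hodgeSub (toH (D.T' i)) (pw X n) j).smul_mem _ (hc' k)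
  · refine (AH.nrm_eq_iff (cmpH D i a)).1 ?_
    have h3 := (AH.nrm_eq_iff (cmpH D i a)).2 (h2 a)
    refine h3.trans ?_
    have h0 : (∑ k, ((α k : ℚ) : K) • c' k) + ε a • ∑ k, ((β k : ℚ) : K) • c' k =
        ∑ k, ((α k + ((ε a : ℤ) : ℚ) * β k : ℚ) : K) • c' k := by
      rw [sign_smul (K := K), Finset.smul_sum, ← Finset.sum_add_distrib]
      refine Finset.sum_congr rfl fun k _ => ?_
      rw [smul_smul, ← add_smul]
      push_cast
      rfl
    have h4 : AH.em (toH (D.T' i)).W (D.L i a) (∑ k,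
          ((α k + ((ε a : ℤ) : ℚ) * β k : ℚ) : (toH (D.T' i)).W.K) •
            (show (toH (D.T' i)).W.H (pw X n) from c' k)) =
        ∑ k, AH.em (toH (D.T' i)).W (D.L i a)
          (((α k + ((ε a : ℤ) : ℚ) * β k : ℚ) : (toH (D.T' i)).W.K) •
            (show (toH (D.T' i)).W.H (pw X n) from c' k)) := em_sum _ _
    refine Eq.trans ?_ (congrArg (AH.em (toH (D.T' i)).W (D.L i a) (X := pw X n)) h0).symm
    refine Eq.trans ?_ h4.symm
    refine Finset.sum_congr rfl fun k _ => ?_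
    have h5 : (show (baseW (toH (D.T' i)).W (D.L i a)).K from e k a) =
        ((α k + ((ε a : ℤ) : ℚ) * β k : ℚ) : (baseW (toH (D.T' i)).W (D.L i a)).K) := by
      have h6 := hαβ k a
      have h7 : e k a = ((α k + ((ε a : ℤ) : ℚ) * β k : ℚ) : D.L i a) := by
        rw [h6]
        push_cast
        rfl
      exact h7
    refine Eq.trans ?_ (em_rat_smul (W := (toH (D.T' i)).W) (L := D.L i a)
      (α k + ((ε a : ℤ) : ℚ) * β k) (c' k)).symm
    exact congrArg (fun l : (baseW (toH (D.T' i)).W (D.L i a)).K =>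
      l • AH.em (toH (D.T' i)).W (D.L i a) (c' k)) h5

/-- **The one-third law.** -/
theorem third_law (T : HodgeTheory ops) (D : Conjugates T) (hD : AllPrimes D) (X : 𝒱.Obj) :
    (∀ i, ∃ ε : D.J i → ℤˣ, ∀ n j, UpToSign D i ε (pw X n) j) ∨
      AtMostThird (fun n => absDim D (pw X n)) fun n => hodgeDim T (pw X n) := by
  have hz : ∀ (i : D.ι) (a : D.J i) (n : ℕ) (c' : (D.T' i).W.H (pw X n)),
      c' + (1 : ℤˣ) • (0 : (D.T' i).W.H (pw X n)) = c' := by
    intro i a n c'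
    rw [one_smul, add_zero]
  rcases subsingleton_or_nontrivial (T.W.H X) with hs | hn
  · left
    refine fun i => ⟨fun _ => 1, fun n j c hc => ?_⟩
    have h1 : finrank T.W.K (T.W.H (pw X n)) = 0 := by
      rw [Pool.Agent.Y133.Half.finrank_pw, finrank_zero_of_subsingleton,
        zero_pow (Nat.succ_ne_zero n)]
    have h2 : Subsingleton (T.W.H (pw X n)) := finrank_zero_iff.1 h1
    refine ⟨0, 0, AH.IsHodge.zero (T := toH (D.T' i)), AH.IsHodge.zero (T := toH (D.T' i)),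
      fun a => ?_⟩
    rw [Subsingleton.elim c 0, hz i a n 0]
    refine (AH.nrm_eq_iff (cmpH D i a)).1 ?_
    have h3 : AH.nrm (cmpH D i a) (pw X n) j (0 : (toH T).W.H (pw X n)) = 0 := AH.nrm_zero _ _
    exact h3.trans AH.em_zero.symm
  obtain ⟨N, h1, h2, h3, -, h5, -⟩ := index_law T D X
  by_cases hN1 : N = 1
  · left
    refine fun i => ⟨fun _ => 1, fun n j c hc => ?_⟩
    obtain ⟨c', hc', h⟩ := (h3.1 hN1 n j c hc).2 i
    refine ⟨c', 0, hc', AH.IsHodge.zero (T := toH (D.T' i)), fun a => ?_⟩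
    rw [hz i a n c']
    exact h a
  by_cases hN2 : N = 2
  · left
    intro i
    obtain ⟨e, he, h⟩ := h5 2 hN2 i
    obtain ⟨ε, hε⟩ := upToSign_of (X := X) hD i he
    exact ⟨ε, fun n j => hε n j (h n j)⟩
  · right
    refine ⟨N, ?_, ?_⟩
    · have h6 : (1 : ℕ∞) < N := lt_of_le_of_ne h1 (Ne.symm hN1)
      have h7 : (2 : ℕ∞) ≤ N := Order.add_one_le_of_lt h6
      have h8 : (2 : ℕ∞) < N := lt_of_le_of_ne h7 (Ne.symm hN2)
      exact Order.add_one_le_of_lt h8
    · have h6 : Tendsto (fun n => ((hodgeDim T (pw X n) : ℝ≥0∞) / absDim D (pw X n))⁻¹) atTop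
          (𝓝 (N : ℝ≥0∞)⁻¹) := tendsto_inv_iff.2 h2
      refine h6.congr fun n => ?_
      rw [ENNReal.inv_div (Or.inl (ENNReal.natCast_ne_top _))
        (Or.inl (by exact_mod_cast (absDim_pos (D := D) (X := X) n).ne'))]

end Pool.Agent.Y121.AHS.Full
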